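import Pool.Agent.H670R2.PspMain

/-!
# MP_31f6f1_lc: Max-2-PSP under a fixed polyhedral norm is solvable in polynomial time

`PolyTimeSolvable B` says that some polynomial-time Turing machine computes, from every list of
distinct points with rational coordinates, two edge-disjoint round-trips of maximum total length
(or reports that there are none), where distances are measured by the norm with unit ball `B`.
-/

namespace Pool.Agent.Results.MP_31f6f1_lc.PolyhedralInP

open Pool.Agent.H670R2.PSP

/-- **Max-2-PSP under a fixed polyhedral norm is in P**: for every dimension `s` and every
polyhedral unit ball `B = {x | A x ≤ 1}` in `ℝˢ`,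

1. if `A` is rational, then Max-2-PSP under `B` is solvable in polynomial time;
2. if `A` is real and the signs of integer combinations of its entries are computable in polynomial
   time, then Max-2-PSP under `B` is solvable in polynomial time. -/
theorem result {m s : ℕ} (B : Set (Fin s → ℝ)) :
    (∀ A : Fin m → Fin s → ℚ, IsPolyhedralBall (fun i k => (A i k : ℝ)) B → PolyTimeSolvable B) ∧
    (∀ A : Fin m → Fin s → ℝ, IsPolyhedralBall A B → PolyTimeSigns A → PolyTimeSolvable B) :=
  ⟨fun A hB => solvable_of_signs hB (signs_rat A), fun _ hB hA => solvable_of_signs hB hA⟩

end Pool.Agent.Results.MP_31f6f1_lc.PolyhedralInP
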